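import Pool.Agent.Q105.LAT.Stm

/-! # Project LAT (helper105), job LAT8: twin classes -/

set_option autoImplicit false

namespace Pool.Agent.Q241.LAT

open SimpleGraph Pool.Agent.Q105.LAB Pool.Agent.Q105.LAT

lemma twins_refl {X : Type} (P : SimpleGraph X) (x : X) : Twins P x x := fun _ _ _ => Iff.rfl

lemma twins_symm {X : Type} {P : SimpleGraph X} {x y : X} (h : Twins P x y) : Twins P y x :=
  fun z h1 h2 => (h z h2 h1).symm

lemma twins_trans {X : Type} {P : SimpleGraph X} {x y z : X} (h : Twins P x y) (h' : Twins P y z) :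
    Twins P x z := by
  intro w h1 h2
  by_cases hwy : w = y
  · subst hwy
    by_cases hxz : x = z
    · rw [hxz]
    · have e1 : P.Adj x w ↔ P.Adj x z := h' x (Ne.symm h1) hxz
      have e2 : P.Adj z x ↔ P.Adj z w := h z (Ne.symm hxz) (Ne.symm h2)
      rw [P.adj_comm w x, e1, P.adj_comm x z, e2, P.adj_comm]
  · exact (h w h1 hwy).trans (h' w hwy h2)

/-- moving one end -/
lemma twins_adj {X : Type} {P : SimpleGraph X} {x x' y y' : X} (h : Twins P x x')
    (h' : Twins P y y') (hxy : x ≠ y) (hxy' : x' ≠ y') (ha : P.Adj x y) : P.Adj x' y' := by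
  by_cases h1 : x' = y
  · -- all four in one class
    subst h1
    -- Twins x x', x' y'
    have h3 : Twins P x y' := twins_trans h h'
    by_cases h4 : x = y'
    · subst h4
      exact ha.symm
    · -- Adj x x', want Adj x' y'
      have e2 : P.Adj x x' ↔ P.Adj x y' := h' x hxy h4
      have e3 : P.Adj y' x ↔ P.Adj y' x' := h y' (Ne.symm h4) (Ne.symm hxy')
      exact (e3.1 (e2.1 ha).symm).symm
  · have e1 : P.Adj y x ↔ P.Adj y x' := h y (Ne.symm hxy) (Ne.symm h1)
    have h2 : P.Adj x' y := (e1.1 ha.symm).symm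
    exact (h' x' h1 hxy').1 h2

theorem t_Cls : S_Cls := by
  intro X _ P
  let s : Setoid X := ⟨Twins P, twins_refl P, twins_symm, twins_trans⟩
  refine ⟨Quotient s, inferInstance, Quotient.mk s,
    fun u v => ∃ x y, Quotient.mk s x = u ∧ Quotient.mk s y = v ∧ P.Adj x y, ?_, ?_, ?_, ?_⟩
  · exact Quotient.mk_surjective
  · rintro u v ⟨x, y, hx, hy, h⟩
    exact ⟨y, x, hy, hx, h.symm⟩
  · intro x y
    exact Quotient.eq
  · intro x y
    constructor
    · intro h
      exact ⟨h.ne, x, y, rfl, rfl, h⟩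
    · rintro ⟨hne, a, b, ha, hb, h⟩
      have h1 : Twins P a x := Quotient.exact ha
      have h2 : Twins P b y := Quotient.exact hb
      exact twins_adj h1 h2 h.ne hne h

end Pool.Agent.Q241.LAT
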