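import Pool.Agent.Q105.LAT.Stm

/-! # Project LAT (helper105), job LAT9: the theorem from the lemmas -/

set_option autoImplicit false

namespace Pool.Agent.Q241.LAT

open Finset SimpleGraph H931R3.LA Pool.Agent.Q105.LAB Pool.Agent.Q105.LAT

theorem t_Target (h1 : S_Cls) (h2 : S_Crit) (h3 : S_Mat) : Target := by
  classical
  intro X _ P D hdeg hheavy
  obtain ⟨V, hV, f, A, hsurj, hA, hfT, hfA⟩ := h1 X P
  haveI : Fintype V := Fintype.ofFinite V
  haveI : Fintype X := Fintype.ofFinite X
  set s : V → ℕ := fun v => Nat.card {x // f x = v} with hs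
  have hs' : ∀ v, s v = (univ.filter (fun x => f x = v)).card := by
    intro v
    rw [hs]
    simp only [Nat.card_eq_fintype_card, Fintype.card_subtype]
  have hs1 : ∀ v, 1 ≤ s v := by
    intro v
    obtain ⟨x, hx⟩ := hsurj v
    rw [hs' v]
    exact Finset.card_pos.2 ⟨x, mem_filter.2 ⟨mem_univ _, hx⟩⟩
  have htn : ∀ x, twinNum P x = s (f x) := by
    intro x
    have e1 : {y | Twins P x y} = ((univ.filter (fun y => f y = f x) : Finset X) : Set X) := by
      ext y
      rw [Finset.coe_filter]
      simp only [Set.mem_setOf_eq, mem_univ, true_and]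
      rw [← hfT]
      exact eq_comm
    unfold twinNum
    rw [e1, Set.ncard_coe_finset, hs']
  -- degrees
  have hee : ∀ u, ∑ v, ee A s u v ≤ s u * D := by
    intro u
    obtain ⟨x, rfl⟩ := hsurj u
    have e1 : ∀ v, ee A s (f x) v = s (f x) * (univ.filter (fun y => P.Adj x y ∧ f y = v)).card := by
      intro v
      unfold ee
      by_cases hav : A (f x) v
      · rw [if_pos hav]
        by_cases huv : f x = v
        · rw [if_pos huv]
          congr 1
          have e2 : univ.filter (fun y => P.Adj x y ∧ f y = v) = (univ.filter (fun y => f y = f x)).erase x := by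
            ext y
            simp only [mem_filter, mem_univ, true_and, mem_erase]
            constructor
            · rintro ⟨ha, hy⟩
              exact ⟨ha.ne', by rw [hy, huv]⟩
            · rintro ⟨ha, hy⟩
              refine ⟨(hfA x y).2 ⟨Ne.symm ha, ?_⟩, by rw [hy, huv]⟩
              rw [hy]
              rw [← huv] at hav
              exact hav
          have hxm : x ∈ univ.filter (fun y => f y = f x) := mem_filter.2 ⟨mem_univ _, rfl⟩
          rw [e2, card_erase_of_mem hxm, ← hs']
        · rw [if_neg huv]
          congr 1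
          rw [hs' v]
          congr 1
          ext y
          simp only [mem_filter, mem_univ, true_and]
          constructor
          · intro hy
            refine ⟨(hfA x y).2 ⟨fun h => huv (by rw [h, hy]), by rw [hy]; exact hav⟩, hy⟩
          · exact fun h => h.2
      · rw [if_neg hav]
        have e2 : univ.filter (fun y => P.Adj x y ∧ f y = v) = ∅ := by
          rw [filter_eq_empty_iff]
          rintro y - ⟨ha, hy⟩
          exact hav (hy ▸ ((hfA x y).1 ha).2)
        rw [e2, card_empty, mul_zero]
    rw [sum_congr rfl (fun v _ => e1 v), ← mul_sum]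
    refine Nat.mul_le_mul_left _ (le_trans (le_of_eq ?_) (hdeg x))
    have e3 : P.neighborSet x = ((univ.filter (fun y => P.Adj x y) : Finset X) : Set X) := by
      ext y
      rw [Finset.coe_filter]
      simp only [Set.mem_setOf_eq, mem_univ, true_and, SimpleGraph.mem_neighborSet]
    rw [e3, Set.ncard_coe_finset, card_eq_sum_card_fiberwise (f := f) (t := univ) (fun y _ => by simp)]
    refine sum_congr rfl fun v _ => ?_
    rw [filter_filter]
  -- connectedness
  have hconn : ∀ u v, A u v → (hv A s D).Reachable u v := by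
    intro u v huv
    by_cases he : u = v
    · rw [he]
    obtain ⟨x, rfl⟩ := hsurj u
    obtain ⟨y, rfl⟩ := hsurj v
    have hxy : P.Adj x y := (hfA x y).2 ⟨fun h => he (by rw [h]), huv⟩
    obtain ⟨p⟩ := hheavy x y hxy
    clear hxy huv he
    induction p with
    | nil => exact Reachable.refl _
    | @cons a b c hab p ih =>
      refine Reachable.trans ?_ ih
      by_cases hfab : f a = f b
      · rw [hfab]
      · refine Adj.reachable ?_
        have h4 : ∀ a b, f a ≠ f b → P.Adj a b ∧ (Twins P a b ∨ D < twinNum P a * twinNum P b) →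
            A (f a) (f b) ∧ D < s (f a) * s (f b) := by
          rintro a b hab' ⟨h5, h6⟩
          refine ⟨((hfA a b).1 h5).2, ?_⟩
          rcases h6 with h6 | h6
          · exact absurd ((hfT a b).2 h6) hab'
          · rwa [htn, htn] at h6
        rw [heavy, fromRel_adj] at hab
        rw [hv, fromRel_adj]
        refine ⟨hfab, ?_⟩
        rcases hab.2 with h5 | h5
        · exact Or.inl (h4 a b hfab h5)
        · exact Or.inr (h4 b a (Ne.symm hfab) h5)
  obtain ⟨N, hN1, hN2, hN3, hN4, hN5⟩ := h3 V A s D hA hs1 hee hconn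
  have hcov := h2 V (Fin ((D + 2) / 2)) A s N hA hs1 hN1 hN2 hN3 hN4 hN5
  rw [Fintype.card_fin] at hcov
  let ψ : X ≃ Σ v, Fin (s v) := (Equiv.sigmaFiberEquiv f).symm.trans
    (Equiv.sigmaCongrRight fun v => Finite.equivFin {x // f x = v})
  have hψ : ∀ x, (ψ x).1 = f x := fun x => rfl
  refine hcov.comap ⟨ψ.toEmbedding, ?_⟩
  intro x y
  change (blw A s).Adj (ψ x) (ψ y) ↔ P.Adj x y
  rw [blw, fromRel_adj, hψ, hψ, hfA x y]
  constructor
  · rintro ⟨h4, h5⟩
    refine ⟨fun h => h4 (by rw [h]), ?_⟩
    rcases h5 with h5 | h5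
    · exact h5
    · exact hA _ _ h5
  · rintro ⟨h4, h5⟩
    exact ⟨fun h => h4 (ψ.injective h), Or.inl h5⟩

end Pool.Agent.Q241.LAT
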